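import Pool.Agent.H.MP_ab6b4f_lc.A

set_option autoImplicit false

namespace Pool.Agent.Results.MP_ab6b4f_lc.Yes

open TopologicalSpace

/-- a represented space: `T₀`, with `β` enumerating a basis of the topology -/
def Rep {X : Type} [TopologicalSpace X] (β : ℕ → Set X) : Prop :=
  T0Space X ∧ IsTopologicalBasis (Set.range β)

def Nbase {X : Type} (β : ℕ → Set X) (x : X) : Set ℕ := {e | x ∈ β e}

/-- enumeration reducibility; finite sets are given by lists -/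
def ERed (A B : Set ℕ) : Prop := ∃ Φ : ℕ × List ℕ → Prop, REPred Φ ∧
  ∀ n, n ∈ A ↔ ∃ l, Φ (n, l) ∧ ∀ e ∈ l, e ∈ B

def join (A B : Set ℕ) : Set ℕ := {n | n % 2 = 0 ∧ n / 2 ∈ A ∨ n % 2 = 1 ∧ n / 2 ∈ B}

open Classical in
/-- characteristic function -/
noncomputable def chi (X : Set ℕ) : ℕ →. ℕ := fun n => Part.some (if n ∈ X then 1 else 0)

/-- `S` is c.e. relative to `X` -/
def CEin (X S : Set ℕ) : Prop := ∃ g : ℕ →. ℕ, TuringReducible g (chi X) ∧ ∀ n, n ∈ S ↔ (g n).Dom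

/-- the sets whose degrees are called doubled co-`d`-CEA -/
def Dbl (S : Set ℕ) : Prop := ∃ X A B P N : Set ℕ, CEin X P ∧ CEin X N ∧ CEin X (A ∪ B)ᶜ ∧
  Disjoint A B ∧ Disjoint A P ∧ Disjoint A N ∧ Disjoint B P ∧ Disjoint B N ∧ Disjoint P N ∧
    S = join (join (join X Xᶜ) (A ∪ P)) (B ∪ N)

theorem result (Y : Type) [TopologicalSpace Y] (γ : ℕ → Set Y) (h : Rep γ) [T25Space Y] :
    ∃ S, Dbl S ∧ ∀ y, ¬ (ERed (Nbase γ y) S ∧ ERed S (Nbase γ y)) := by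
  open Pool.Agent.H.MP_ab6b4f_lc in
  obtain ⟨x, k⟩ := not_forall.1 (main h.2.eq_generateFrom)
  refine ⟨S x, ⟨_, _, _, _, _, ce_P 0 x, ce_P 1 x, ce_A x, ?_, ?_, ?_, ?_, ?_, ?_, rfl⟩,
    fun y ⟨⟨W, a, b⟩, V, c, d⟩ => k ⟨y, W, V, a, c, b, d⟩⟩ <;>
  exact Set.disjoint_left.2 fun j => by simp only [AA, PP, Set.mem_ofPred_eq]; omega

end Pool.Agent.Results.MP_ab6b4f_lc.Yes
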